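import Pool.Agent.Helper86.TH.Stmts

/-! # Row HS of the project TH: the action of `A` on Schur functions -/

namespace TH96

open TH MvPolynomial Finset

noncomputable section

variable (K : Type*) [Field K] [CharZero K]

/-- the linear functional `z^alpha ↦ prod h_{c_i - alpha_i}` -/
def Phi (N : ℕ) (c : Fin N → ℤ) : MvPolynomial (Fin N) K →ₗ[K] Sy K :=
  (MvPolynomial.basisMonomials (Fin N) K).constr K
    (fun s => ∏ i, hz K (c i - (s i : ℤ)))

theorem Phi_mono (N : ℕ) (c : Fin N → ℤ) (a : Fin N → ℕ) (x : K) :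
    Phi K N c (C x * ∏ i, X i ^ a i) = x • ∏ i, hz K (c i - (a i : ℤ)) := by
  have h1 : (∏ i, X i ^ a i : MvPolynomial (Fin N) K)
      = monomial (Finsupp.equivFunOnFinite.symm a) 1 := by
    rw [MvPolynomial.monomial_eq, C_1, one_mul, Finsupp.prod_fintype _ _ (fun i => pow_zero _)]
    rfl
  rw [h1, ← MvPolynomial.smul_eq_C_mul, map_smul]
  congr 1
  have h2 : (monomial (Finsupp.equivFunOnFinite.symm a) 1 : MvPolynomial (Fin N) K)
      = MvPolynomial.basisMonomials (Fin N) K (Finsupp.equivFunOnFinite.symm a) := by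
    rw [MvPolynomial.coe_basisMonomials]
  rw [h2, Phi, Module.Basis.constr_basis]
  rfl

theorem schur_eq (N : ℕ) (lam : ℕ → ℕ) :
    schur K N lam = ∑ σ : Equiv.Perm (Fin N), ((Equiv.Perm.sign σ : ℤ) : K) •
      hp K N (fun i => (lam i : ℤ) - (i : ℤ) + (σ i : ℤ)) := by
  rw [schur, ← Matrix.det_transpose, Matrix.det_apply']
  refine Finset.sum_congr rfl fun σ _ => ?_
  rw [hp, MvPolynomial.smul_eq_C_mul, map_intCast]
  rfl

/-- `sum_m E_m h_{r-m} = q^r h_r` -/
theorem EE_sum (q : K) (r : ℤ) (L : ℕ) (hL : r < (L : ℤ)) :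
    ∑ m ∈ range L, EE q m * hz K (r - (m : ℤ)) = (q ^ r) • hz K r := by
  by_cases hr : r < 0
  · have h1 : hz K r = 0 := by rw [hz, if_neg (by omega)]
    rw [h1, smul_zero]
    refine Finset.sum_eq_zero fun m _ => ?_
    rw [hz, if_neg (by omega), mul_zero]
  · obtain ⟨n, rfl⟩ := Int.eq_ofNat_of_zero_le (not_lt.mp hr)
    have h1 : hz K ((n : ℕ) : ℤ) = hh K n := by rw [hz, if_pos (by omega), Int.toNat_natCast]
    have h2 : ∑ m ∈ range L, EE q m * hz K ((n : ℤ) - (m : ℤ))
        = ∑ m ∈ range (n + 1), EE q m * hh K (n - m) := by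
      have hsub : range (n + 1) ⊆ range L := Finset.range_subset_range.mpr (by omega)
      rw [← Finset.sum_subset hsub]
      · refine Finset.sum_congr rfl fun m hm => ?_
        rw [Finset.mem_range] at hm
        rw [hz, if_pos (by omega)]
        congr 2
        omega
      · intro m _ hm
        rw [Finset.mem_range] at hm
        rw [hz, if_neg (by omega), mul_zero]
    rw [h1, h2, zpow_natCast]
    have h3 := hc_add_range (fun j => -(C (1 - q ^ (j + 1)) * X j : Sy K)) (fun j => (X j : Sy K)) n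
    have h4 : (fun j => -(C (1 - q ^ (j + 1)) * X j : Sy K) + (X j : Sy K))
        = fun j => (C q : Sy K) ^ (j + 1) * X j := by
      funext j
      rw [map_sub, map_one, map_pow]; ring
    rw [h4, hc_scale] at h3
    rw [MvPolynomial.smul_eq_C_mul, map_pow]
    exact h3.symm

theorem st_HS (hP : ST_HP K) (hV : ST_HV K) : ST_HS K := by
  intro q t N lam hq
  set c : Fin N → ℤ := fun i => (lam i : ℤ) - (i : ℤ) + ((N : ℤ) - 1) with hc
  set M : ℕ := (∑ i : Fin N, lam i) + N + 1 with hM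
  have hlam : ∀ i : Fin N, lam i ≤ ∑ i : Fin N, lam i := fun i =>
    Finset.single_le_sum (f := fun i : Fin N => lam i) (fun _ _ => Nat.zero_le _)
      (Finset.mem_univ i)
  have hr : ∀ (σ : Equiv.Perm (Fin N)) (i : Fin N),
      (lam i : ℤ) - (i : ℤ) + (σ i : ℤ) < (M : ℤ) := by
    intro σ i
    have h1 := hlam i
    have h2 : ((σ i : Fin N) : ℕ) < N := (σ i).2
    have h3 : (M : ℤ) = ((∑ i : Fin N, lam i : ℕ) : ℤ) + N + 1 := by rw [hM]; push_cast; ring
    have h4 : ((lam i : ℕ) : ℤ) ≤ ((∑ i : Fin N, lam i : ℕ) : ℤ) := by exact_mod_cast h1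
    have h5 : (((σ i : Fin N) : ℕ) : ℤ) < (N : ℤ) := by exact_mod_cast h2
    omega
  -- the functional applied to the alternating identity
  have key : ∀ m : ℕ,
      ∑ σ : Equiv.Perm (Fin N), ∑ j ∈ Finset.piAntidiag (univ : Finset (Fin N)) m,
        (((Equiv.Perm.sign σ : ℤ) : K) * ∏ i, (if j i = 0 then (1 : K) else 1 - t)) •
          hp K N (fun i => (lam i : ℤ) - (i : ℤ) + (σ i : ℤ) - (j i : ℤ))
      = (if m = 0 then (t ^ N) • ∑ σ : Equiv.Perm (Fin N), ((Equiv.Perm.sign σ : ℤ) : K) •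
          hp K N (fun i => (lam i : ℤ) - (i : ℤ) + (σ i : ℤ)) else 0)
        + ∑ σ : Equiv.Perm (Fin N), ∑ i : Fin N,
          ((1 - t) * (((Equiv.Perm.sign σ : ℤ) : K) * t ^ (σ i : ℕ))) •
          (hz K ((lam i : ℤ) - (i : ℤ) + (σ i : ℤ) - (m : ℤ)) *
            ∏ l ∈ univ.erase i, hz K ((lam l : ℤ) - (l : ℤ) + (σ l : ℤ))) := by
    intro m
    have h1 := congrArg (Phi K N c) (hV t N m)
    have hL : Phi K N c ((∑ j ∈ Finset.piAntidiag (univ : Finset (Fin N)) m,
          ∏ i, ((if j i = 0 then (1 : MvPolynomial (Fin N) K) else C (1 - t)) * X i ^ (j i))) *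
        (∑ σ : Equiv.Perm (Fin N), ((Equiv.Perm.sign σ : ℤ) : MvPolynomial (Fin N) K) *
          ∏ i, X i ^ (N - 1 - (σ i : ℕ))))
        = ∑ σ : Equiv.Perm (Fin N), ∑ j ∈ Finset.piAntidiag (univ : Finset (Fin N)) m,
        (((Equiv.Perm.sign σ : ℤ) : K) * ∏ i, (if j i = 0 then (1 : K) else 1 - t)) •
          hp K N (fun i => (lam i : ℤ) - (i : ℤ) + (σ i : ℤ) - (j i : ℤ)) := by
      rw [Finset.sum_mul_sum, Finset.sum_comm, map_sum]
      refine Finset.sum_congr rfl fun σ _ => ?_
      rw [map_sum]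
      refine Finset.sum_congr rfl fun j _ => ?_
      have e1 : (∏ i, ((if j i = 0 then (1 : MvPolynomial (Fin N) K) else C (1 - t)) * X i ^ (j i)))
            * (((Equiv.Perm.sign σ : ℤ) : MvPolynomial (Fin N) K) *
              ∏ i, X i ^ (N - 1 - (σ i : ℕ)))
          = C (((Equiv.Perm.sign σ : ℤ) : K) * ∏ i, (if j i = 0 then (1 : K) else 1 - t)) *
            ∏ i, X i ^ (j i + (N - 1 - (σ i : ℕ))) := by
        rw [Finset.prod_mul_distrib, map_mul, map_prod, map_intCast]
        have e2 : ∀ i : Fin N, (C (if j i = 0 then (1 : K) else 1 - t) : MvPolynomial (Fin N) K)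
            = if j i = 0 then (1 : MvPolynomial (Fin N) K) else C (1 - t) := by
          intro i
          by_cases h : j i = 0
          · rw [if_pos h, if_pos h, map_one]
          · rw [if_neg h, if_neg h]
        rw [Finset.prod_congr rfl fun i _ => e2 i]
        have e3 : (∏ i, X i ^ (j i + (N - 1 - (σ i : ℕ))) : MvPolynomial (Fin N) K)
            = (∏ i, X i ^ (j i)) * ∏ i, X i ^ (N - 1 - (σ i : ℕ)) := by
          rw [← Finset.prod_mul_distrib]
          exact Finset.prod_congr rfl fun i _ => pow_add _ _ _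
        rw [e3]; ring
      rw [e1, Phi_mono, hp]
      congr 1
      refine Finset.prod_congr rfl fun i _ => ?_
      congr 1
      have h2 : ((σ i : Fin N) : ℕ) < N := (σ i).2
      simp only [hc]
      omega
    have hR : ∀ (σ : Equiv.Perm (Fin N)) (x : K), Phi K N c (C x *
          ∏ i, X i ^ (N - 1 - (σ i : ℕ)))
        = x • hp K N (fun i => (lam i : ℤ) - (i : ℤ) + (σ i : ℤ)) := by
      intro σ x
      rw [Phi_mono, hp]
      congr 1
      refine Finset.prod_congr rfl fun i _ => ?_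
      congr 1
      have h2 : ((σ i : Fin N) : ℕ) < N := (σ i).2
      simp only [hc]
      omega
    have hR2 : ∀ (σ : Equiv.Perm (Fin N)) (i : Fin N) (x : K), Phi K N c (X i ^ m * (C x *
          ∏ l, X l ^ (N - 1 - (σ l : ℕ))))
        = x • (hz K ((lam i : ℤ) - (i : ℤ) + (σ i : ℤ) - (m : ℤ)) *
            ∏ l ∈ univ.erase i, hz K ((lam l : ℤ) - (l : ℤ) + (σ l : ℤ))) := by
      intro σ i x
      have e1 : (X i ^ m * (C x * ∏ l, X l ^ (N - 1 - (σ l : ℕ))) : MvPolynomial (Fin N) K)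
          = C x * ∏ l, X l ^ ((if l = i then m else 0) + (N - 1 - (σ l : ℕ))) := by
        have e2 : (∏ l, X l ^ ((if l = i then m else 0) + (N - 1 - (σ l : ℕ))) :
              MvPolynomial (Fin N) K)
            = X i ^ m * ∏ l, X l ^ (N - 1 - (σ l : ℕ)) := by
          rw [Finset.prod_congr rfl fun l _ => pow_add (X l : MvPolynomial (Fin N) K) _ _,
            Finset.prod_mul_distrib]
          congr 1
          rw [Finset.prod_eq_single i]
          · rw [if_pos rfl]
          · intro l _ hl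
            rw [if_neg hl, pow_zero]
          · intro hi
            exact absurd (Finset.mem_univ i) hi
        rw [e2]; ring
      rw [e1, Phi_mono]
      congr 1
      rw [← Finset.mul_prod_erase univ _ (Finset.mem_univ i)]
      congr 1
      · congr 1
        have h2 : ((σ i : Fin N) : ℕ) < N := (σ i).2
        rw [if_pos rfl]
        simp only [hc]
        omega
      · refine Finset.prod_congr rfl fun l hl => ?_
        congr 1
        have h2 : ((σ l : Fin N) : ℕ) < N := (σ l).2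
        rw [if_neg (Finset.ne_of_mem_erase hl)]
        simp only [hc]
        omega
    rw [hL] at h1
    rw [h1, map_add]
    congr 1
    · by_cases hm : m = 0
      · rw [if_pos hm, if_pos hm, Finset.mul_sum, map_sum, Finset.smul_sum]
        refine Finset.sum_congr rfl fun σ _ => ?_
        have e1 : (C (t ^ N) * (((Equiv.Perm.sign σ : ℤ) : MvPolynomial (Fin N) K) *
              ∏ i, X i ^ (N - 1 - (σ i : ℕ))))
            = C (t ^ N * ((Equiv.Perm.sign σ : ℤ) : K)) * ∏ i, X i ^ (N - 1 - (σ i : ℕ)) := by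
          rw [map_mul, map_intCast]; ring
        rw [e1, hR, smul_smul]
      · rw [if_neg hm, if_neg hm, map_zero]
    · rw [Finset.sum_comm, Finset.mul_sum, map_sum]
      refine Finset.sum_congr rfl fun i _ => ?_
      rw [Finset.mul_sum, Finset.mul_sum, map_sum]
      refine Finset.sum_congr rfl fun σ _ => ?_
      rw [← hR2]
      congr 1
      rw [map_mul, map_mul, map_intCast, map_pow]
      ring
  -- the computation
  have hE0 : EE q 0 = (1 : Sy K) := by rw [EE, hc_zero]
  rw [schur_eq, map_sum]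
  have h2 : ∀ σ : Equiv.Perm (Fin N), Aop q t (((Equiv.Perm.sign σ : ℤ) : K) •
        hp K N (fun i => (lam i : ℤ) - (i : ℤ) + (σ i : ℤ)))
      = ∑ m ∈ range (N * M + 1), EE q m *
        ∑ j ∈ Finset.piAntidiag (univ : Finset (Fin N)) m,
        (((Equiv.Perm.sign σ : ℤ) : K) * ∏ i, (if j i = 0 then (1 : K) else 1 - t)) •
          hp K N (fun i => (lam i : ℤ) - (i : ℤ) + (σ i : ℤ) - (j i : ℤ)) := by
    intro σ
    rw [map_smul, hP q t N _ M (hr σ), Finset.smul_sum]
    refine Finset.sum_congr rfl fun m _ => ?_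
    rw [← mul_smul_comm, Finset.smul_sum]
    congr 1
    refine Finset.sum_congr rfl fun j _ => ?_
    rw [mul_smul]
    congr 1
    rw [MvPolynomial.smul_eq_C_mul, map_prod]
    congr 1
    refine Finset.prod_congr rfl fun i _ => ?_
    by_cases h : j i = 0
    · rw [if_pos h, if_pos h, map_one]
    · rw [if_neg h, if_neg h]
  rw [Finset.sum_congr rfl fun σ _ => h2 σ, Finset.sum_comm]
  rw [Finset.sum_congr rfl fun m _ => (Finset.mul_sum _ _ (EE q m)).symm]
  rw [Finset.sum_congr rfl fun m _ => by rw [key m, mul_add]]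
  rw [Finset.sum_add_distrib]
  have h3 : ∑ m ∈ range (N * M + 1), EE q m * (if m = 0 then (t ^ N) •
        ∑ σ : Equiv.Perm (Fin N), ((Equiv.Perm.sign σ : ℤ) : K) •
          hp K N (fun i => (lam i : ℤ) - (i : ℤ) + (σ i : ℤ)) else 0)
      = (t ^ N) • ∑ σ : Equiv.Perm (Fin N), ((Equiv.Perm.sign σ : ℤ) : K) •
          hp K N (fun i => (lam i : ℤ) - (i : ℤ) + (σ i : ℤ)) := by
    rw [Finset.sum_eq_single 0]
    · rw [if_pos rfl, hE0, one_mul]
    · intro m _ hm
      rw [if_neg hm, mul_zero]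
    · intro h
      exact absurd (Finset.mem_range.mpr (Nat.succ_pos _)) h
  have h4 : ∑ m ∈ range (N * M + 1), EE q m * ∑ σ : Equiv.Perm (Fin N), ∑ i : Fin N,
          ((1 - t) * (((Equiv.Perm.sign σ : ℤ) : K) * t ^ (σ i : ℕ))) •
          (hz K ((lam i : ℤ) - (i : ℤ) + (σ i : ℤ) - (m : ℤ)) *
            ∏ l ∈ univ.erase i, hz K ((lam l : ℤ) - (l : ℤ) + (σ l : ℤ)))
      = ∑ σ : Equiv.Perm (Fin N), ∑ i : Fin N,
          ((1 - t) * (((Equiv.Perm.sign σ : ℤ) : K) * t ^ (σ i : ℕ)) *
            q ^ ((lam i : ℤ) - (i : ℤ) + (σ i : ℤ))) •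
          hp K N (fun i => (lam i : ℤ) - (i : ℤ) + (σ i : ℤ)) := by
    rw [Finset.sum_congr rfl fun m _ => Finset.mul_sum _ _ (EE q m), Finset.sum_comm]
    refine Finset.sum_congr rfl fun σ _ => ?_
    rw [Finset.sum_congr rfl fun m _ => Finset.mul_sum _ _ (EE q m), Finset.sum_comm]
    refine Finset.sum_congr rfl fun i _ => ?_
    have e1 : ∀ m : ℕ, EE q m * (((1 - t) * (((Equiv.Perm.sign σ : ℤ) : K) * t ^ (σ i : ℕ))) •
          (hz K ((lam i : ℤ) - (i : ℤ) + (σ i : ℤ) - (m : ℤ)) *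
            ∏ l ∈ univ.erase i, hz K ((lam l : ℤ) - (l : ℤ) + (σ l : ℤ))))
        = ((1 - t) * (((Equiv.Perm.sign σ : ℤ) : K) * t ^ (σ i : ℕ))) •
          ((EE q m * hz K ((lam i : ℤ) - (i : ℤ) + (σ i : ℤ) - (m : ℤ))) *
            ∏ l ∈ univ.erase i, hz K ((lam l : ℤ) - (l : ℤ) + (σ l : ℤ))) := by
      intro m
      rw [mul_smul_comm, mul_assoc]
    rw [Finset.sum_congr rfl fun m _ => e1 m, ← Finset.smul_sum, ← Finset.sum_mul,
      EE_sum K q _ (N * M + 1)]
    · rw [hp, ← Finset.mul_prod_erase univ (fun i : Fin N =>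
        hz K ((lam i : ℤ) - (i : ℤ) + (σ i : ℤ))) (Finset.mem_univ i), smul_mul_assoc, smul_smul]
    · have h5 := hr σ i
      have hN : 1 ≤ N := by
        have := i.2
        omega
      have h6 : (M : ℤ) ≤ ((N * M + 1 : ℕ) : ℤ) := by
        have : M ≤ N * M := Nat.le_mul_of_pos_left M hN
        exact_mod_cast Nat.le_succ_of_le this
      omega
  rw [h3, h4, Finset.smul_sum, ← Finset.sum_add_distrib]
  refine Finset.sum_congr rfl fun σ _ => ?_
  rw [← Finset.sum_smul, smul_smul, ← add_smul]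
  congr 1
  rw [mul_add, Finset.mul_sum, Finset.mul_sum]
  congr 1
  · ring
  · refine Finset.sum_congr rfl fun i _ => ?_
    ring

end

end TH96
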