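import Pool.Agent.Helper86.TH.Stmts

/-! # Row HV of the project TH: the alternating partial fraction identity -/

namespace TH96

open TH MvPolynomial Finset

noncomputable section

theorem hc_one_var {R : Type*} [CommRing R] [Algebra ℚ R] (t x : R) (r : ℕ) :
    hc (fun j => (1 - t ^ (j + 1)) * x ^ (j + 1)) r = (if r = 0 then 1 else 1 - t) * x ^ r := by
  have h : (fun j => (1 - t ^ (j + 1)) * x ^ (j + 1))
      = fun j => (-((t * x) ^ (j + 1))) + x ^ (j + 1) := by
    funext j
    rw [mul_pow]; ring
  rw [h, hc_add_range]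
  simp only [hc_geom]
  cases r with
  | zero => simp
  | succ r =>
    rw [Finset.sum_range_succ', Finset.sum_range_succ']
    simp only [hc_neg_geom_two, hc_zero, hc_neg_geom_one]
    simp only [zero_mul, Finset.sum_const_zero, Nat.add_sub_cancel, Nat.sub_zero]
    rw [if_neg (Nat.succ_ne_zero r), hc_neg_geom_one]
    rw [pow_succ]; ring

theorem sum_piAntidiag_eq {R : Type*} [CommRing R] [Algebra ℚ R] (N m : ℕ) (t : R)
    (x : Fin N → R) :
    ∑ j ∈ Finset.piAntidiag (univ : Finset (Fin N)) m,
        ∏ i, ((if j i = 0 then (1 : R) else 1 - t) * x i ^ (j i))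
      = hc (fun j => (1 - t ^ (j + 1)) * ∑ i : Fin N, x i ^ (j + 1)) m := by
  have h1 : hc (fun j => (1 - t ^ (j + 1)) * ∑ i : Fin N, x i ^ (j + 1)) m
      = PowerSeries.coeff m (hcS (fun j => ∑ i : Fin N, (1 - t ^ (j + 1)) * x i ^ (j + 1))) := by
    rw [hcS, PowerSeries.coeff_mk]
    congr 1
    funext j
    rw [Finset.mul_sum]
  rw [h1, hcS_sum, PowerSeries.coeff_prod]
  symm
  refine Finset.sum_nbij' (fun f => (⇑f : Fin N → ℕ)) (fun g => Finsupp.equivFunOnFinite.symm g)
    ?_ ?_ ?_ ?_ ?_
  · intro f hf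
    rw [mem_finsuppAntidiag] at hf
    rw [mem_piAntidiag]
    exact ⟨hf.1, fun i _ => Finset.mem_univ i⟩
  · intro g hg
    rw [mem_piAntidiag] at hg
    rw [mem_finsuppAntidiag]
    exact ⟨hg.1, Finset.subset_univ _⟩
  · intro f _
    ext i; rfl
  · intro g _
    rfl
  · intro f _
    refine Finset.prod_congr rfl fun i _ => ?_
    rw [hcS, PowerSeries.coeff_mk, hc_one_var]

section det
variable {K : Type*} [Field K]

theorem det_V (N : ℕ) (x : Fin N → K) :
    ∑ σ : Equiv.Perm (Fin N), ((Equiv.Perm.sign σ : ℤ) : K) * ∏ i, x i ^ (N - 1 - (σ i : ℕ))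
      = ∏ a : Fin N, ∏ b ∈ Finset.Ioi a, (x a - x b) := by
  have h := Matrix.det_projVandermonde (fun _ : Fin N => (1 : K)) x
  rw [← Matrix.det_transpose, Matrix.det_apply'] at h
  simp only [Matrix.transpose_apply, Matrix.projVandermonde_apply, one_pow, one_mul] at h
  rw [← h]
  refine Finset.sum_congr rfl fun σ _ => ?_
  congr 1
  refine Finset.prod_congr rfl fun i _ => ?_
  congr 1
  rw [Fin.val_rev]; omega

theorem det_Vi (N : ℕ) (x : Fin N → K) (t : K) (i : Fin N) :
    ∑ σ : Equiv.Perm (Fin N), ((Equiv.Perm.sign σ : ℤ) : K) *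
        (t ^ (σ i : ℕ) * ∏ l, x l ^ (N - 1 - (σ l : ℕ)))
      = ∏ a : Fin N, ∏ b ∈ Finset.Ioi a,
        ((if b = i then t else 1) * x a - (if a = i then t else 1) * x b) := by
  have h := Matrix.det_projVandermonde (fun l : Fin N => if l = i then t else (1 : K)) x
  rw [← Matrix.det_transpose, Matrix.det_apply'] at h
  simp only [Matrix.transpose_apply, Matrix.projVandermonde_apply] at h
  rw [← h]
  refine Finset.sum_congr rfl fun σ _ => ?_
  congr 1
  rw [Finset.prod_mul_distrib]
  congr 1
  · rw [Finset.prod_eq_single i]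
    · simp
    · intro l _ hl
      simp [hl]
    · intro hi
      exact absurd (Finset.mem_univ i) hi
  · refine Finset.prod_congr rfl fun l _ => ?_
    congr 1
    rw [Fin.val_rev]; omega

theorem det_ratio (N : ℕ) (x : Fin N → K) (hx : Function.Injective x) (t : K) (i : Fin N) :
    ∏ a : Fin N, ∏ b ∈ Finset.Ioi a,
        ((if b = i then t else 1) * x a - (if a = i then t else 1) * x b)
      = (∏ a : Fin N, ∏ b ∈ Finset.Ioi a, (x a - x b)) *
        ∏ l ∈ univ.erase i, (x i - t * x l) / (x i - x l) := by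
  have hne : ∀ a b : Fin N, a ≠ b → x a - x b ≠ 0 := fun a b hab h =>
    hab (hx (sub_eq_zero.mp h))
  have h1 : ∏ l ∈ univ.erase i, (x i - t * x l) / (x i - x l)
      = ∏ a : Fin N, ∏ b ∈ Finset.Ioi a,
        (if a = i then (x i - t * x b) / (x i - x b)
          else if b = i then (x i - t * x a) / (x i - x a) else 1) := by
    have h2 : ∀ a : Fin N, ∏ b ∈ Finset.Ioi a,
        (if a = i then (x i - t * x b) / (x i - x b)
          else if b = i then (x i - t * x a) / (x i - x a) else 1)
        = (if a = i then ∏ b ∈ Finset.Ioi i, (x i - t * x b) / (x i - x b) else 1) *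
          (if a < i then (x i - t * x a) / (x i - x a) else 1) := by
      intro a
      by_cases ha : a = i
      · subst ha
        simp
      · simp only [if_neg ha, one_mul]
        rw [Finset.prod_ite_eq' (Finset.Ioi a) i]
        simp only [Finset.mem_Ioi]
    rw [Finset.prod_congr rfl fun a _ => h2 a, Finset.prod_mul_distrib,
      Finset.prod_ite_eq' univ i, if_pos (Finset.mem_univ i), ← Finset.prod_filter]
    have h3 : (univ.erase i : Finset (Fin N)) = Finset.Ioi i ∪ univ.filter (fun a => a < i) := by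
      ext a
      simp only [Finset.mem_erase, Finset.mem_univ, and_true, Finset.mem_union, Finset.mem_Ioi,
        Finset.mem_filter, true_and]
      constructor
      · intro h
        rcases lt_or_gt_of_ne h with h | h
        · exact Or.inr h
        · exact Or.inl h
      · rintro (h | h)
        · exact ne_of_gt h
        · exact ne_of_lt h
    rw [h3, Finset.prod_union]
    rw [Finset.disjoint_left]
    intro a ha hb
    rw [Finset.mem_Ioi] at ha
    rw [Finset.mem_filter] at hb
    exact absurd (lt_trans ha hb.2) (lt_irrefl _)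
  rw [h1, ← Finset.prod_mul_distrib]
  refine Finset.prod_congr rfl fun a _ => ?_
  rw [← Finset.prod_mul_distrib]
  refine Finset.prod_congr rfl fun b hb => ?_
  rw [Finset.mem_Ioi] at hb
  by_cases ha : a = i
  · subst ha
    have hba : b ≠ a := ne_of_gt hb
    rw [if_pos rfl, if_neg hba, if_pos rfl]
    rw [mul_div_cancel₀ _ (hne a b (ne_of_lt hb))]
    ring
  · by_cases hbi : b = i
    · subst hbi
      rw [if_neg ha, if_pos rfl, if_neg ha, if_pos rfl]
      have h4 := hne b a (ne_of_gt hb)
      field_simp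
      ring
    · rw [if_neg ha, if_neg hbi, if_neg ha, if_neg hbi]
      ring

end det

variable (K : Type*) [Field K] [CharZero K]

/-- the identity at a point with distinct nonzero coordinates -/
theorem HV_point (h0 : ST_PF0 K) (t : K) (N m : ℕ) (x : Fin N → K)
    (hx0 : ∀ i, x i ≠ 0) (hx : Function.Injective x) :
    (∑ j ∈ Finset.piAntidiag (univ : Finset (Fin N)) m,
      ∏ i, ((if j i = 0 then (1 : K) else 1 - t) * x i ^ (j i))) *
    (∑ σ : Equiv.Perm (Fin N), ((Equiv.Perm.sign σ : ℤ) : K) *
      ∏ i, x i ^ (N - 1 - (σ i : ℕ)))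
  = (if m = 0 then t ^ N * ∑ σ : Equiv.Perm (Fin N),
        ((Equiv.Perm.sign σ : ℤ) : K) * ∏ i, x i ^ (N - 1 - (σ i : ℕ))
      else 0)
    + (1 - t) * ∑ i : Fin N, x i ^ m * ∑ σ : Equiv.Perm (Fin N),
        ((Equiv.Perm.sign σ : ℤ) : K) * (t ^ (σ i : ℕ) *
          ∏ l, x l ^ (N - 1 - (σ l : ℕ))) := by
  rw [sum_piAntidiag_eq]
  set y : ℕ → K := fun n => if h : n < N then x ⟨n, h⟩ else 0 with hy
  have hyx : ∀ i : Fin N, y (i : ℕ) = x i := by
    intro i
    simp only [hy, i.2, dif_pos, Fin.eta]
  have hsum : ∀ j : ℕ, ∑ i : Fin N, x i ^ (j + 1) = ∑ i ∈ range N, y i ^ (j + 1) := by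
    intro j
    rw [Finset.sum_range]
    exact Finset.sum_congr rfl fun i _ => by rw [hyx]
  have h1 := h0 t N y (fun i hi => by
      have := hyx ⟨i, hi⟩
      simp only at this
      rw [this]; exact hx0 _) (fun i j hi hj hij => by
      have h2 := hyx ⟨i, hi⟩
      have h3 := hyx ⟨j, hj⟩
      simp only at h2 h3
      rw [h2, h3] at hij
      have := hx hij
      simpa using this) m
  have h2 : (fun j => (1 - t ^ (j + 1)) * ∑ i : Fin N, x i ^ (j + 1))
      = fun j => (1 - t ^ (j + 1)) * ∑ i ∈ range N, y i ^ (j + 1) := by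
    funext j; rw [hsum]
  rw [h2, h1]
  have h3 : ∑ i ∈ range N, AA t N y i * y i ^ m
      = ∑ i : Fin N, ((1 - t) * ∏ l ∈ univ.erase i, (x i - t * x l) / (x i - x l)) * x i ^ m := by
    rw [Finset.sum_range]
    refine Finset.sum_congr rfl fun i _ => ?_
    rw [hyx]
    congr 1
    rw [AA]
    congr 1
    rw [hyx]
    have h4 : ∏ l ∈ (range N).erase (i : ℕ), (x i - t * y l) / (x i - y l)
        = ∏ l ∈ range N, (if l = (i : ℕ) then 1 else (x i - t * y l) / (x i - y l)) := by
      rw [← Finset.mul_prod_erase (range N) _ (Finset.mem_range.mpr i.2), if_pos rfl, one_mul]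
      refine Finset.prod_congr rfl fun l hl => ?_
      rw [if_neg (Finset.ne_of_mem_erase hl)]
    have h5 : ∏ l ∈ univ.erase i, (x i - t * x l) / (x i - x l)
        = ∏ l : Fin N, (if l = i then 1 else (x i - t * x l) / (x i - x l)) := by
      rw [← Finset.mul_prod_erase univ _ (Finset.mem_univ i), if_pos rfl, one_mul]
      refine Finset.prod_congr rfl fun l hl => ?_
      rw [if_neg (Finset.ne_of_mem_erase hl)]
    rw [h4, h5, Finset.prod_range]
    refine Finset.prod_congr rfl fun l _ => ?_
    rw [hyx]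
    by_cases hl : l = i
    · rw [if_pos hl, if_pos (by rw [hl])]
    · rw [if_neg hl, if_neg (fun h => hl (Fin.ext h))]
  rw [h3, det_V, add_mul]
  congr 1
  · by_cases hm : m = 0
    · rw [if_pos hm, if_pos hm]
    · rw [if_neg hm, if_neg hm, zero_mul]
  · rw [Finset.sum_mul, Finset.mul_sum]
    refine Finset.sum_congr rfl fun i _ => ?_
    rw [det_Vi, det_ratio N x hx t i]
    ring

theorem st_HV (h0 : ST_PF0 K) : ST_HV K := by
  intro t N m
  rw [← sub_eq_zero]
  set P : MvPolynomial (Fin N) K :=
    ((∑ j ∈ Finset.piAntidiag (univ : Finset (Fin N)) m,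
      ∏ i, ((if j i = 0 then (1 : MvPolynomial (Fin N) K) else C (1 - t)) * X i ^ (j i))) *
    (∑ σ : Equiv.Perm (Fin N), ((Equiv.Perm.sign σ : ℤ) : MvPolynomial (Fin N) K) *
      ∏ i, X i ^ (N - 1 - (σ i : ℕ)))) -
    ((if m = 0 then C (t ^ N) * ∑ σ : Equiv.Perm (Fin N),
        ((Equiv.Perm.sign σ : ℤ) : MvPolynomial (Fin N) K) * ∏ i, X i ^ (N - 1 - (σ i : ℕ))
      else 0)
    + C (1 - t) * ∑ i : Fin N, X i ^ m * ∑ σ : Equiv.Perm (Fin N),
        ((Equiv.Perm.sign σ : ℤ) : MvPolynomial (Fin N) K) * (C t ^ (σ i : ℕ) *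
          ∏ l, X l ^ (N - 1 - (σ l : ℕ)))) with hP
  set Q : MvPolynomial (Fin N) K :=
    (∏ i : Fin N, X i) * ∏ a : Fin N, ∏ b ∈ Finset.Ioi a, (X a - X b) with hQ
  have hQ0 : Q ≠ 0 := by
    rw [hQ]
    refine mul_ne_zero (Finset.prod_ne_zero_iff.mpr fun i _ => X_ne_zero i) ?_
    refine Finset.prod_ne_zero_iff.mpr fun a _ => Finset.prod_ne_zero_iff.mpr fun b hb => ?_
    rw [Finset.mem_Ioi] at hb
    intro h
    have := X_injective (sub_eq_zero.mp h)
    exact absurd this (ne_of_lt hb)
  have hPQ : P * Q = 0 := by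
    refine MvPolynomial.funext fun x => ?_
    rw [map_zero, map_mul]
    by_cases hx0 : ∃ i, x i = 0
    · obtain ⟨i, hi⟩ := hx0
      have : eval x Q = 0 := by
        rw [hQ, map_mul, map_prod]
        rw [Finset.prod_eq_zero (Finset.mem_univ i) (by rw [eval_X, hi]), zero_mul]
      rw [this, mul_zero]
    · push Not at hx0
      by_cases hinj : Function.Injective x
      · have : eval x P = 0 := by
          rw [hP, map_sub, sub_eq_zero]
          have h1 := HV_point K h0 t N m x hx0 hinj
          by_cases hm : m = 0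
          · simp only [if_pos hm] at h1 ⊢
            simp only [map_add, map_mul, map_sum, map_prod, map_pow, eval_X, eval_C, map_intCast,
              apply_ite (eval x), map_one]
            exact h1
          · simp only [if_neg hm] at h1 ⊢
            simp only [map_add, map_mul, map_sum, map_prod, map_pow, eval_X, eval_C, map_intCast,
              apply_ite (eval x), map_one, map_zero]
            exact h1
        rw [this, zero_mul]
      · rw [Function.Injective] at hinj
        push Not at hinj
        obtain ⟨a, b, hab, hne⟩ := hinj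
        have key : ∀ a b : Fin N, a < b → x a = x b → eval x Q = 0 := by
          intro a b hlt hab
          rw [hQ, map_mul, map_prod, map_prod]
          rw [Finset.prod_eq_zero (Finset.mem_univ a) (f := fun a => eval x
            (∏ b ∈ Finset.Ioi a, (X a - X b))), mul_zero]
          rw [map_prod]
          exact Finset.prod_eq_zero (Finset.mem_Ioi.mpr hlt) (by
            rw [map_sub, eval_X, eval_X, hab, sub_self])
        have : eval x Q = 0 := by
          rcases lt_or_gt_of_ne hne with h | h
          · exact key a b h hab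
          · exact key b a h hab.symm
        rw [this, mul_zero]
  exact (mul_eq_zero.mp hPQ).resolve_right hQ0

end

end TH96
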